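import Pool.Agent.R97.XiUp

/-!
# MP_172133_co, Q1: arbitrarily many subdivisions are needed

For every nontrivial finite group `G` and every `r` there is a finite free `G`-simplicial complex
`K` with `ind K < Xind F(sd^r K)`; in fact with `ind K ≤ 1` and `Xind F(sd^r K) ≥ 2`.
The proof is by helper126.
-/

set_option autoImplicit false

namespace Pool.Agent.Results.MP_172133_co.SlowCrossIndex

open Pool.Agent.R126.Ix Pool.Agent.R97.Xi

universe u

theorem result (G : Type u) [Group G] [Fintype G] [Nontrivial G] (r : ℕ) :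
    ∃ (X : FreeSC G) (m n : ℕ), IsInd G X.K m ∧ IsXind G (FreeSC.sd^[r] X).K.FP n ∧
      m ≤ 1 ∧ 2 ≤ n ∧ m < n := by
  classical
  obtain ⟨g0, hg⟩ := exists_ne (1 : G)
  have ho : 0 < orderOf g0 := orderOf_pos g0
  have hpos : 16 ≤ orderOf g0 * 2 ^ (r + 4) := by
    have : 2 ^ 4 ≤ 2 ^ (r + 4) := Nat.pow_le_pow_right (by norm_num) (by omega)
    nlinarith
  obtain ⟨m, hm⟩ : ∃ m, m + 1 = orderOf g0 * 2 ^ (r + 4) :=
    ⟨orderOf g0 * 2 ^ (r + 4) - 1, by omega⟩
  have hm1 : g0 ^ (m + 1) = 1 := by rw [hm, pow_mul, pow_orderOf_eq_one, one_pow]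
  have hm2 : 2 ≤ m := by omega
  have hind : IndLE G (YY hm1).Δ.K 1 := indLE_YY hg hm1 hm2
  have hx : ¬ XindLE G (FreeSC.sd^[r] (YY hm1).Δ).face.P 1 := by
    intro h
    refine no_cob hm1 hg hm2 ?_ (cob_of_sd g0 r (YY hm1) h)
    rw [hm]
    have : 4 * (2 ^ (r + 1) * orderOf g0) = orderOf g0 * 2 ^ (r + 3) := by ring
    rw [this]
    exact Nat.mul_lt_mul_of_pos_left (Nat.pow_lt_pow_right (by norm_num) (by omega)) ho
  have hex : ∃ n, XindLE G (FreeSC.sd^[r] (YY hm1).Δ).face.P n := exists_xindLE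
  have hi : ∃ k, IndLE G (YY hm1).Δ.K k := ⟨1, hind⟩
  refine ⟨(YY hm1).Δ, Nat.find hi, Nat.find hex, ⟨Nat.find_spec hi, fun k hk => Nat.find_min' hi hk⟩,
    ⟨Nat.find_spec hex, fun k hk => Nat.find_min' hex hk⟩, Nat.find_min' hi hind, ?_, ?_⟩
  · by_contra hcon
    exact hx (XindLE.mono (by omega) (Nat.find_spec hex))
  · have h1 : Nat.find hi ≤ 1 := Nat.find_min' hi hind
    have h2 : 2 ≤ Nat.find hex := by
      by_contra hcon
      exact hx (XindLE.mono (by omega) (Nat.find_spec hex))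
    omega

end Pool.Agent.Results.MP_172133_co.SlowCrossIndex
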